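import Pool.Agent.H816Z.Spec

set_option autoImplicit false

namespace Pool.Agent.H816Z

namespace KosAux

variable {r : ℕ}

abbrev W (r : ℕ) := (Fin r → ℕ) → (Fin r → ZMod 2) → ZMod 2

def D (i : Fin r) (w : W r) : W r := fun m p =>
  if 0 < m i then w (m - Pi.single i 1) (p + Pi.single i 1) + w (m - Pi.single i 1) p else 0

def H (i : Fin r) (w : W r) : W r := fun m p => p i * w (m + Pi.single i 1) (p + Pi.single i 1)

def E (i : Fin r) (w : W r) : W r := fun m p => if m i = 0 then w m (Function.update p i 0) else 0

theorem two (x : ZMod 2) : x + x = 0 := CharTwo.add_self_eq_zero x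

theorem cases2 (x : ZMod 2) : x = 0 ∨ x = 1 := by revert x; decide

theorem ee (p : Fin r → ZMod 2) (i : Fin r) : p + Pi.single i 1 + Pi.single i 1 = p := by
  rw [add_assoc, ← Pi.single_add, two]; simp

theorem kos_eq (w : W r) : kos r w = ∑ i, D i w := by
  funext m p
  simp [kos, D, Finset.sum_apply]

theorem D_sum (i : Fin r) (f : Fin r → W r) : D i (∑ j, f j) = ∑ j, D i (f j) := by
  funext m p
  simp only [D, Finset.sum_apply]
  split_ifs <;> simp [Finset.sum_add_distrib]

theorem kos_add (u v : W r) : kos r (u + v) = kos r u + kos r v := by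
  funext m p
  simp only [kos, Pi.add_apply, ← Finset.sum_add_distrib]
  refine Finset.sum_congr rfl fun i _ => ?_
  split_ifs
  · ring
  · simp

theorem DD (i : Fin r) (w : W r) : D i (D i w) = 0 := by
  funext m p
  simp only [D, ee, Pi.zero_apply]
  split_ifs
  · rw [add_comm (w _ p)]; exact two _
  · simp
  · rfl

theorem D_comm (i j : Fin r) (hij : i ≠ j) (w : W r) : D i (D j w) = D j (D i w) := by
  funext m p
  have e1 : (m - Pi.single i 1 : Fin r → ℕ) j = m j := by simp [Pi.single_eq_of_ne hij.symm]
  have e2 : (m - Pi.single j 1 : Fin r → ℕ) i = m i := by simp [Pi.single_eq_of_ne hij]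
  have e3 : (m - Pi.single i 1 - Pi.single j 1 : Fin r → ℕ) = m - Pi.single j 1 - Pi.single i 1 :=
    tsub_right_comm
  simp only [D, e1, e2, e3, add_right_comm p (Pi.single i 1)]
  split_ifs <;> ring

theorem kos_kos (w : W r) : kos r (kos r w) = 0 := by
  rw [kos_eq, kos_eq]
  simp only [D_sum]
  rw [← Finset.sum_product']
  refine Finset.sum_involution (fun a _ => a.swap) ?_ ?_ (by simp) (by simp)
  · rintro ⟨i, j⟩ _
    by_cases h : i = j
    · subst h; simp [DD]
    · simp only [Prod.swap, D_comm i j h]
      funext m p
      exact two _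
  · rintro ⟨i, j⟩ _ h e
    have : j = i := congrArg Prod.fst e
    subst this
    exact h (DD _ _)

theorem sum_add_single (m : Fin r → ℕ) (i : Fin r) :
    ∑ k, (m + Pi.single i 1 : Fin r → ℕ) k = ∑ k, m k + 1 := by
  simp [Finset.sum_add_distrib]

theorem sub_add (m : Fin r → ℕ) (i : Fin r) (h : 0 < m i) :
    m - Pi.single i 1 + Pi.single i 1 = m := by
  funext k
  by_cases hk : k = i
  · subst hk; simp; omega
  · simp [Pi.single_eq_of_ne hk]

theorem deg_kos (j : ℕ) (w : W r) (h : deg r j w) : deg r (j + 1) (kos r w) := by
  intro m hm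
  funext p
  refine Finset.sum_eq_zero fun i _ => ?_
  split_ifs with hi
  · rw [h (m - Pi.single i 1) fun e => hm (by rw [← e, ← sum_add_single _ i, sub_add m i hi])]
    simp
  · rfl

theorem homotopy (i : Fin r) (w : W r) : kos r (H i w) + H i (kos r w) = w + E i w := by
  funext m p
  have e0 : H i (kos r w) m p = ∑ j, H i (D j w) m p := by
    simp [H, kos_eq, Finset.sum_apply, Finset.mul_sum]
  rw [Pi.add_apply, Pi.add_apply, e0, kos_eq, Finset.sum_apply, Finset.sum_apply,
    ← Finset.sum_add_distrib, Finset.sum_eq_single i]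
  · simp only [D, H, E, Pi.add_apply, Pi.single_eq_same, ee, add_tsub_cancel_right,
      Nat.zero_lt_succ, if_true]
    by_cases hm : 0 < m i
    · rw [if_pos hm, if_neg hm.ne', sub_add m i hm]
      generalize w m p = a
      generalize w m (p + Pi.single i 1) = b
      generalize p i = c
      revert a b c; decide
    · rw [if_neg hm, if_pos (by omega)]
      rcases cases2 (p i) with h | h
      · rw [h, ← h, Function.update_eq_self, h, two]; simp
      · have : Function.update p i 0 = p + Pi.single i 1 := by
          funext k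
          by_cases hk : k = i
          · subst hk; simp [h, two]
          · simp [Function.update_of_ne hk, Pi.single_eq_of_ne hk]
        rw [this, h]; simp
  · intro j _ hj
    have e1 : (m + Pi.single i 1 : Fin r → ℕ) j = m j := by simp [Pi.single_eq_of_ne hj]
    have e2 : (p + Pi.single j 1 : Fin r → ZMod 2) i = p i := by
      simp [Pi.single_eq_of_ne hj.symm]
    have e3 : (m + Pi.single i 1 - Pi.single j 1 : Fin r → ℕ) =
        m - Pi.single j 1 + Pi.single i 1 := by
      funext k
      by_cases hk : k = i
      · subst hk; simp [Pi.single_eq_of_ne hj.symm]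
      · simp [Pi.single_eq_of_ne hk]
    simp only [D, H, e1, e2, e3, add_right_comm p (Pi.single i 1)]
    split_ifs
    · rw [← mul_add]; exact two _
    · simp
  · simp

theorem twoW (w : W r) : w + w = 0 := by
  funext m p; exact two _

theorem exact (j : ℕ) (w : W r) (h : deg r (j + 1) w) (h0 : kos r w = 0) :
    ∃ u, deg r j u ∧ kos r u = w := by
  have key : ∀ S : Finset (Fin r), ∃ u w1 : W r, deg r j u ∧ w = kos r u + w1 ∧ kos r w1 = 0 ∧
      deg r (j + 1) w1 ∧ ∀ m, (∃ i ∈ S, m i ≠ 0) → w1 m = 0 := by
    intro S
    induction S using Finset.induction_on with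
    | empty =>
      refine ⟨0, w, fun _ _ => rfl, ?_, h0, h, by simp⟩
      have : kos r (0 : W r) = 0 := by funext m p; simp [kos]
      rw [this, zero_add]
    | insert i S _ ih =>
      obtain ⟨u, w1, a1, a2, a3, a4, a5⟩ := ih
      have e := homotopy i w1
      have e0 : H i (0 : W r) = 0 := by funext m p; simp [H]
      rw [a3, e0, add_zero] at e
      have e' : E i w1 = w1 + kos r (H i w1) := by rw [e, ← add_assoc, twoW, zero_add]
      have hE : ∀ m, w1 m = 0 → E i w1 m = 0 := by
        intro m hm; funext p; simp [E, hm]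
      refine ⟨u + H i w1, E i w1, fun m hm => ?_, ?_, ?_, fun m hm => hE m (a4 m hm), ?_⟩
      · funext p
        simp [a1 m hm, H, a4 (m + Pi.single i 1) (by rw [sum_add_single]; omega)]
      · rw [kos_add, e', a2, add_assoc, add_comm (kos r (H i w1)), add_assoc w1, twoW, add_zero]
      · rw [e', kos_add, a3, kos_kos, add_zero]
      · rintro m ⟨k, hk, hm⟩
        rcases Finset.mem_insert.1 hk with rfl | hk
        · funext p; simp [E, hm]
        · exact hE m (a5 m ⟨k, hk, hm⟩)
  obtain ⟨u, w1, a1, a2, -, a4, a5⟩ := key Finset.univ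
  refine ⟨u, a1, ?_⟩
  have : w1 = 0 := by
    funext m
    by_cases hm : ∃ i, m i ≠ 0
    · exact a5 m (by simpa using hm)
    · push Not at hm
      exact a4 m (by simp [hm])
  rw [a2, this, add_zero]

theorem deg_zero (w : W r) (h : deg r 0 w) (h0 : kos r w = 0) (m : Fin r → ℕ)
    (p : Fin r → ZMod 2) : w m p = w m 0 := by
  by_cases hm : ∑ i, m i = 0
  · have hm0 : m = 0 := funext fun i => Finset.sum_eq_zero_iff.1 hm i (Finset.mem_univ _)
    subst hm0
    have h1 : ∀ i p, w 0 (p + Pi.single i 1) = w 0 p := by
      intro i p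
      have := congrFun (congrFun h0 (Pi.single i 1)) p
      simp only [kos, Pi.zero_apply] at this
      rw [Finset.sum_eq_single i (fun j _ hj => by simp [Pi.single_eq_of_ne hj]) (by simp)] at this
      simp only [Pi.single_eq_same, Nat.zero_lt_succ, if_true, tsub_self] at this
      exact CharTwo.add_eq_zero.1 this
    have key : ∀ S : Finset (Fin r), ∀ p : Fin r → ZMod 2, (∀ i, i ∉ S → p i = 0) →
        w 0 p = w 0 0 := by
      intro S
      induction S using Finset.induction_on with
      | empty => intro p hp; rw [show p = 0 from funext fun i => hp i (by simp)]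
      | insert i S _ ih =>
        intro p hp
        rcases cases2 (p i) with e | e
        · refine ih p fun k hk => ?_
          by_cases hk' : k = i
          · rw [hk', e]
          · exact hp k (by simp [hk, hk'])
        · rw [← h1 i p]
          refine ih _ fun k hk => ?_
          by_cases hk' : k = i
          · subst hk'; simp [e, two]
          · simp [Pi.single_eq_of_ne hk', hp k (by simp [hk, hk'])]
    exact key Finset.univ p (by simp)
  · rw [h m hm]; rfl

theorem card_le (j : ℕ) : (Finset.piAntidiag (Finset.univ : Finset (Fin r)) j).card ≤ r ^ j := by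
  induction j with
  | zero => simp
  | succ j ih =>
    have : Finset.piAntidiag (Finset.univ : Finset (Fin r)) (j + 1) ⊆
        Finset.univ.biUnion fun i : Fin r =>
          (Finset.piAntidiag (Finset.univ : Finset (Fin r)) j).image (· + Pi.single i 1) := by
      intro m hm
      simp only [Finset.mem_piAntidiag, Finset.mem_univ, implies_true, and_true] at hm
      have hm : ∑ k, m k = j + 1 := hm
      obtain ⟨i, -, hi⟩ := Finset.exists_ne_zero_of_sum_ne_zero (s := Finset.univ) (f := m)
        (by rw [hm]; omega)
      have hi' := Nat.pos_of_ne_zero hi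
      simp only [Finset.mem_biUnion, Finset.mem_univ, true_and, Finset.mem_image,
        Finset.mem_piAntidiag, implies_true, and_true]
      refine ⟨i, m - Pi.single i 1, ?_, sub_add m i hi'⟩
      have := sum_add_single (m - Pi.single i 1) i
      rw [sub_add m i hi', hm] at this
      exact (Nat.add_right_cancel this).symm
    refine (Finset.card_le_card this).trans (Finset.card_biUnion_le.trans ?_)
    calc _ ≤ ∑ _i : Fin r, r ^ j := Finset.sum_le_sum fun i _ => Finset.card_image_le.trans ih
      _ = _ := by simp [pow_succ']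

theorem le_card (j : ℕ) : r.choose j ≤ (Finset.piAntidiag (Finset.univ : Finset (Fin r)) j).card := by
  have : r.choose j = (Finset.powersetCard j (Finset.univ : Finset (Fin r))).card := by simp
  rw [this]
  refine Finset.card_le_card_of_injOn (fun S i => if i ∈ S then 1 else 0) ?_ ?_
  · intro S hS
    have hS' := (Finset.mem_powersetCard.1 hS).2
    simp [hS']
  · intro S _ T _ e
    ext i
    have := congrFun e i
    by_cases h1 : i ∈ S <;> by_cases h2 : i ∈ T <;> simp_all

end KosAux

theorem kos_ok : S_KOS := fun _ =>
  ⟨KosAux.kos_kos, KosAux.deg_kos, KosAux.exact, KosAux.deg_zero, KosAux.card_le, KosAux.le_card⟩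

end Pool.Agent.H816Z
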