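import Pool.Agent.H816Z.Spec

set_option autoImplicit false

open Topology Filter

namespace Pool.Agent.H816Z

namespace T45Aux

section
variable {M : Type} [TopologicalSpace M]

theorem pe_ext {x₀ : M} {y y' : M} (γ : Path x₀ y) (γ' : Path x₀ y') (h : ∀ t, γ t = γ' t) :
    (⟨y, Path.Homotopic.Quotient.mk γ⟩ : PE x₀) = ⟨y', Path.Homotopic.Quotient.mk γ'⟩ := by
  have e : y = y' := by rw [← γ.target, h, γ'.target]
  subst e
  rw [show γ = γ' from Path.ext (funext h)]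

theorem t4 : S_T4 := by
  intro M _ x₀ V w hw
  have key : ∀ a, w a = w ⟨x₀, Path.Homotopic.Quotient.mk (Path.refl x₀)⟩ := by
    rintro ⟨y, ⟨γ⟩⟩
    let A : unitInterval → PE x₀ := fun t =>
      ⟨γ t, Path.Homotopic.Quotient.mk ((γ.subpath 0 t).cast γ.source.symm rfl)⟩
    have hl : IsLocallyConstant fun t => w (A t) := by
      rw [IsLocallyConstant.iff_eventually_eq]
      intro t
      obtain ⟨U, hU, h⟩ := hw (γ t)
      have h1 : γ ⁻¹' U ∈ 𝓝 t := γ.continuous.continuousAt hU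
      filter_upwards [Set.ordConnectedComponent_mem_nhds.2 h1] with s hs
      refine (h (A t) (A s) ⟨γ.subpath t s, ?_, ?_⟩).symm
      · rw [Path.range_subpath, Set.image_subset_iff]
        exact hs
      · change Path.Homotopic.Quotient.mk _ = Path.Homotopic.Quotient.mk _
        rw [Path.Homotopic.Quotient.eq]
        exact ⟨(Path.Homotopy.subpathTransSubpath γ 0 t s).symm⟩
    have h := hl.apply_eq_of_preconnectedSpace 1 0
    have e1 : A 1 = ⟨y, Path.Homotopic.Quotient.mk γ⟩ := pe_ext _ _ fun t => by simp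
    have e0 : A 0 = ⟨x₀, Path.Homotopic.Quotient.mk (Path.refl x₀)⟩ :=
      pe_ext _ _ fun t => by simp
    simp only [e1, e0] at h
    exact h
  intro a b
  rw [key a, key b]

end

section cover

variable {M X : Type} [TopologicalSpace M] (S : Sys M X)

/-- the sheet topology -/
@[reducible] def top : TopologicalSpace X where
  IsOpen W := ∀ x ∈ W, ∃ U ∈ 𝓝 (S.p x), ∀ y, S.R U x y → y ∈ W
  isOpen_univ := fun _ _ => ⟨Set.univ, univ_mem, fun _ _ => trivial⟩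
  isOpen_inter := by
    intro s t hs ht x hx
    obtain ⟨U, h1, h2⟩ := hs x hx.1
    obtain ⟨V, h3, h4⟩ := ht x hx.2
    exact ⟨U ∩ V, inter_mem h1 h3, fun y hy =>
      ⟨h2 y (S.mono Set.inter_subset_left hy), h4 y (S.mono Set.inter_subset_right hy)⟩⟩
  isOpen_sUnion := by
    rintro s hs x ⟨t, ht, hx⟩
    obtain ⟨U, h1, h2⟩ := hs t ht x hx
    exact ⟨U, h1, fun y hy => ⟨t, ht, h2 y hy⟩⟩

theorem uniq {U : Set M} (hU : S.Good U) {x y y' : X} (h : S.R U x y) (h' : S.R U x y')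
    (e : S.p y = S.p y') : y = y' :=
  (hU.2 x (S.mem h) (S.p y') (S.mem (S.symm h'))).unique ⟨e, h⟩ ⟨rfl, h'⟩

theorem cover (hs : Function.Surjective S.p)
    (hg : ∀ (z : M) (W : Set M), W ∈ 𝓝 z → ∃ U ⊆ W, z ∈ U ∧ S.Good U) :
    @IsCoveringMap X M (top S) _ S.p := by
  letI := top S
  intro z
  obtain ⟨U, -, hz, hU⟩ := hg z Set.univ univ_mem
  let ι : Type := WithDiscreteTopology (S.p ⁻¹' {z})
  haveI : Nonempty (M → X) := ⟨Function.surjInv hs⟩
  haveI : Nonempty ι := ⟨.toTopology ⊥ ⟨_, (hs z).choose_spec⟩⟩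
  refine IsEvenlyCovered.to_isEvenlyCovered_preimage (I := ι)
    (.of_trivialization (t := hU.1.trivializationDiscrete (f := S.p)
      (fun i : ι => {x | S.R U i.ofTopology.1 x}) U ?_ ?_ ?_ ?_ ?_) hz)
  · intro i W hW
    constructor
    · intro ho x hx
      refine ⟨W, ho.mem_nhds hx.1, fun y hy => ⟨S.mem (S.symm hy), S.trans hx.2 (S.mono hW hy)⟩⟩
    · intro ho
      rw [isOpen_iff_mem_nhds]
      intro v hv
      have hi : S.p i.ofTopology.1 = z := i.ofTopology.2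
      obtain ⟨x, ⟨rfl, hx⟩, -⟩ := hU.2 i.ofTopology.1 (by rw [hi]; exact hz) v (hW hv)
      obtain ⟨V, h1, h2⟩ := ho x ⟨hv, hx⟩
      obtain ⟨V', h3, h4, h5⟩ := hg _ V h1
      filter_upwards [h5.1.mem_nhds h4] with u hu
      obtain ⟨y, ⟨rfl, hy⟩, -⟩ := h5.2 x h4 u hu
      exact (h2 y (S.mono h3 hy)).1
  · intro i x hx y hy e
    exact uniq S hU hx hy e
  · intro i v hv
    have hi : S.p i.ofTopology.1 = z := i.ofTopology.2
    obtain ⟨x, ⟨rfl, hx⟩, -⟩ := hU.2 i.ofTopology.1 (by rw [hi]; exact hz) v hv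
    exact ⟨x, hx, rfl⟩
  · intro i j hij
    refine Set.disjoint_left.2 fun x hi hj => hij ?_
    have := uniq S hU (S.symm hi) (S.symm hj) (i.ofTopology.2.trans j.ofTopology.2.symm)
    exact WithTopology.ext (Subtype.ext this)
  · intro x hx
    obtain ⟨i, ⟨hi, h⟩, -⟩ := hU.2 x hx z hz
    exact Set.mem_iUnion.2 ⟨.toTopology ⊥ ⟨i, hi⟩, S.symm h⟩

theorem mono_R (hs : Function.Surjective S.p)
    (hg : ∀ (z : M) (W : Set M), W ∈ 𝓝 z → ∃ U ⊆ W, z ∈ U ∧ S.Good U) {U : Set M}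
    (hU : S.Good U) {u v : M} (δ : Path u v) (hδ : Set.range δ ⊆ U) (e : S.p ⁻¹' {u}) :
    S.R U e.1 (@IsCoveringMap.monodromy X M (top S) _ _ (cover S hs hg) u v
      (Path.Homotopic.Quotient.mk δ) e).1 := by
  letI := top S
  have he : S.p e.1 = u := e.2
  have heU : S.p e.1 ∈ U := by rw [he]; exact hδ ⟨0, δ.source⟩
  choose Γ hΓ using fun t => (hU.2 e.1 heU (δ t) (hδ ⟨t, rfl⟩)).exists
  have hc : Continuous Γ := by
    rw [continuous_def]
    intro O hO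
    rw [isOpen_iff_mem_nhds]
    intro t ht
    obtain ⟨V, h1, h2⟩ := hO _ ht
    obtain ⟨V', h3, h4, h5⟩ := hg _ (V ∩ U) (inter_mem h1 (hU.1.mem_nhds (S.mem (S.symm (hΓ t).2))))
    have h6 : V' ∈ 𝓝 (δ t) := (hΓ t).1 ▸ h5.1.mem_nhds h4
    filter_upwards [δ.continuous.continuousAt h6] with s hs
    obtain ⟨y, ⟨hy1, hy2⟩, -⟩ := h5.2 (Γ t) h4 (δ s) hs
    have : y = Γ s := uniq S hU (S.trans (hΓ t).2 (S.mono (h3.trans Set.inter_subset_right) hy2))
      (hΓ s).2 (hy1.trans (hΓ s).1.symm)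
    rw [Set.mem_preimage, ← this]
    exact h2 y (S.mono (h3.trans Set.inter_subset_left) hy2)
  have h0 : Γ 0 = e.1 := uniq S hU (hΓ 0).2 (S.refl heU) ((hΓ 0).1.trans (δ.source.trans he.symm))
  have := ((cover S hs hg).eq_liftPath_iff (γ := δ) (e := e.1) (δ.source.trans he.symm)).2
    ⟨hc, funext fun t => (hΓ t).1, h0⟩
  change S.R U e.1 ((cover S hs hg).liftPath δ e.1 _ 1)
  rw [← this]
  exact (hΓ 1).2

end cover

section twist

variable {M X : Type} [TopologicalSpace M] (S : Sys M X) (c : X → X → ZMod 2)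

def Coc (U : Set M) : Prop := ∀ a b d, S.R U a b → S.R U b d → c a b + c b d = c a d

theorem Coc.self {U : Set M} (h : Coc S c U) {a : X} (ha : S.p a ∈ U) : c a a = 0 := by
  simpa using h a a a (S.refl ha) (S.refl ha)

def tw : Sys M (X × ZMod 2) where
  p x := S.p x.1
  R U x y := S.R U x.1 y.1 ∧ (Coc S c U → y.2 = x.2 + c x.1 y.1)
  symm := by
    rintro U a b ⟨h1, h2⟩
    refine ⟨S.symm h1, fun h => ?_⟩
    rw [h2 h, add_assoc, h _ _ _ h1 (S.symm h1), h.self S c (S.mem h1), add_zero]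
  trans := by
    rintro U a b d ⟨h1, h2⟩ ⟨h3, h4⟩
    refine ⟨S.trans h1 h3, fun h => ?_⟩
    rw [h4 h, h2 h, add_assoc, h _ _ _ h1 h3]
  mono := by
    rintro U U' a b hU ⟨h1, h2⟩
    exact ⟨S.mono hU h1, fun h => h2 fun a b d h3 h4 => h a b d (S.mono hU h3) (S.mono hU h4)⟩
  mem := fun h => S.mem h.1
  refl := fun h => ⟨S.refl h, fun h' => by rw [h'.self S c h, add_zero]⟩

theorem tw_good {U : Set M} (hU : S.Good U) (h : Coc S c U) : (tw S c).Good U := by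
  refine ⟨hU.1, fun a ha y hy => ?_⟩
  obtain ⟨b, ⟨h1, h2⟩, h3⟩ := hU.2 a.1 ha y hy
  refine ⟨(b, a.2 + c a.1 b), ⟨h1, h2, fun _ => rfl⟩, ?_⟩
  rintro ⟨b', ε⟩ ⟨h4, h5, h6⟩
  have := h3 b' ⟨h4, h5⟩
  subst this
  exact Prod.ext rfl (h6 h)

end twist

theorem t5 : S_T5 := by
  intro M _ _ x₀ hg c hc
  let S := pathSys x₀
  have hs : Function.Surjective (tw S c).p := fun y => by
    obtain ⟨a, ha⟩ := path_surj x₀ y
    exact ⟨(a, 0), ha⟩
  have hg0 : ∀ (z : M) (W : Set M), W ∈ 𝓝 z → ∃ U ⊆ W, z ∈ U ∧ S.Good U ∧ Coc S c U := by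
    intro z W hW
    obtain ⟨V, h1, h2⟩ := hc z
    obtain ⟨U, h3, h4, h5⟩ := hg z (W ∩ V) (inter_mem hW h1)
    have h6 := h3.trans Set.inter_subset_right
    exact ⟨U, h3.trans Set.inter_subset_left, h4, h5,
      fun a b d q1 q2 => h2 a b d (S.mono h6 q1) (S.mono h6 q2)⟩
  have hg' : ∀ (z : M) (W : Set M), W ∈ 𝓝 z → ∃ U ⊆ W, z ∈ U ∧ (tw S c).Good U := by
    intro z W hW
    obtain ⟨U, h1, h2, h3, h4⟩ := hg0 z W hW
    exact ⟨U, h1, h2, tw_good S c h3 h4⟩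
  letI := top (tw S c)
  let cov := cover (tw S c) hs hg'
  let e0 : (tw S c).p ⁻¹' {x₀} := ⟨(⟨x₀, .refl x₀⟩, 0), rfl⟩
  let m : (a : PE x₀) → (tw S c).p ⁻¹' {a.1} := fun a => cov.monodromy a.2 e0
  have hm : ∀ U, S.Good U → Coc S c U → ∀ a b, S.R U a b → (tw S c).R U (m a).1 (m b).1 := by
    rintro U h1 h2 a b ⟨δ, h3, h4⟩
    have := mono_R (tw S c) hs hg' (tw_good S c h1 h2) δ h3 (m a)
    have e : m b = cov.monodromy (Path.Homotopic.Quotient.mk δ) (m a) := by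
      simp only [m]
      rw [h4, cov.monodromy_trans_apply]
    rw [e]
    exact this
  have hfst : ∀ a, (m a).1.1 = a := by
    intro a
    have := t4 M x₀ Prop (fun a => (m a).1.1 = a) (fun z => by
      obtain ⟨U, -, h1, h2, h3⟩ := hg0 z Set.univ univ_mem
      have key : ∀ a b, S.R U a b → (m a).1.1 = a → (m b).1.1 = b := by
        intro a b h e
        have h4 := (hm U h2 h3 a b h).1
        rw [e] at h4
        exact uniq S h2 h4 h (m b).2
      exact ⟨U, h2.1.mem_nhds h1, fun a b h =>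
        propext ⟨key a b h, key b a (S.symm h)⟩⟩) a ⟨x₀, .refl x₀⟩
    rw [this]
    simp only [m, cov.monodromy_refl]
    rfl
  refine ⟨fun a => (m a).1.2, fun z => ?_⟩
  obtain ⟨U, -, h1, h2, h3⟩ := hg0 z Set.univ univ_mem
  refine ⟨U, h2.1.mem_nhds h1, fun a b h => ?_⟩
  have := (hm U h2 h3 a b h).2 h3
  rwa [hfst, hfst] at this

end T45Aux

theorem t4 : S_T4 := T45Aux.t4

theorem t5 : S_T5 := T45Aux.t5

end Pool.Agent.H816Z
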